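import Pool.Agent.T2H70.WI.Key

/-!
# The product of two weakly invertible functions of `E^p(μ)` need not be weakly invertible

For every exponent `p > 0` we construct a symmetric measure `μ` and two weakly invertible
functions `g, h` of `E^p(μ)` whose product lies in `E^p(μ)` and is not weakly invertible.
The measure is concentrated on the circles of radius `(j+1)/(j+2)` and the functions are
exponentials of lacunary sums of polynomials.
-/

set_option autoImplicit false

open Complex Polynomial Metric Set Real MeasureTheory Filter Topology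
open scoped ENNReal
open Pool.Agent.T2H70.WI

namespace Pool.Agent.Results.MP_2c3223_an.ProductNotWeaklyInvertible

/-- the exponents of the first factor -/
noncomputable def th (i : ℕ) : ℝ := if Even i then 2 / 3 else 1 / 3

/-- the exponents of the second factor -/
noncomputable def et (i : ℕ) : ℝ := if Even i then 1 / 3 else 2 / 3

lemma th_nonneg (i : ℕ) : 0 ≤ th i := by unfold th; split_ifs <;> norm_num
lemma et_nonneg (i : ℕ) : 0 ≤ et i := by unfold et; split_ifs <;> norm_num
lemma th_le (i : ℕ) : th i ≤ 2 / 3 := by unfold th; split_ifs <;> norm_num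
lemma et_le (i : ℕ) : et i ≤ 2 / 3 := by unfold et; split_ifs <;> norm_num
lemma th_add_et (i : ℕ) : th i + et i = 1 := by unfold th et; split_ifs <;> norm_num

lemma abs_th (i : ℕ) : |th i| ≤ 1 := abs_le.2 ⟨by linarith [th_nonneg i], by linarith [th_le i]⟩
lemma abs_et (i : ℕ) : |et i| ≤ 1 := abs_le.2 ⟨by linarith [et_nonneg i], by linarith [et_le i]⟩

/-- every fractional part is weakly invertible -/
lemma weaklyInvertible_frac {h : ℝ} (d : Sq h) (p : ℝ) (hp : 0 < p) (θ : ℕ → ℝ)
    (h0 : ∀ i, 0 ≤ θ i) (h1 : ∀ i, θ i ≤ 2 / 3) :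
    WeaklyInvertible (symmMeasure (d.nu p)) p (d.g θ) := by
  have habs : ∀ i, |θ i| ≤ 1 := fun i => abs_le.2 ⟨by linarith [h0 i], by linarith [h1 i]⟩
  refine ⟨⟨d.g_diff θ habs, ?_⟩, ?_⟩
  · refine (d.norm_upper p p hp (d.g θ) (fun j => (4 / 5) ^ j) (fun j => by positivity)
      Sq.geo.summable (fun j z hz => d.upper_frac p hp θ h0 h1 j z hz)).trans_lt ?_
    exact ENNReal.rpow_lt_top_of_nonneg (by positivity) ENNReal.ofReal_ne_top
  · obtain ⟨T, b, hb0, hbs, hbt, hb⟩ := d.cyclic p hp θ h0 h1
    refine ⟨T, ?_⟩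
    have hup : ∀ k, normE (symmMeasure (d.nu p)) p (fun z => (T k).eval z * d.g θ z - 1)
        ≤ (ENNReal.ofReal (∑' j, b k j)) ^ (1 / p) := fun k =>
      d.norm_upper p p hp _ (b k) (hb0 k) (hbs k) (fun j z hz => hb k j z hz)
    have hlim : Tendsto (fun k => (ENNReal.ofReal (∑' j, b k j)) ^ (1 / p)) atTop (𝓝 0) := by
      have e1 : Tendsto (fun k => ENNReal.ofReal (∑' j, b k j)) atTop (𝓝 0) := by
        have := ENNReal.tendsto_ofReal hbt
        rwa [ENNReal.ofReal_zero] at this
      have e2 := e1.ennrpow_const (1 / p)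
      rwa [ENNReal.zero_rpow_of_pos (by positivity)] at e2
    exact tendsto_of_tendsto_of_tendsto_of_le_of_le tendsto_const_nhds hlim
      (fun _ => bot_le) hup

/-- large exponents are excluded for the factors -/
lemma not_memE_of_large {h : ℝ} (d : Sq h) (p s : ℝ) (hp : 0 < p) (hs : 3 / 2 * p < s)
    (θ : ℕ → ℝ) (h0 : ∀ i, 0 ≤ θ i) (h1 : ∀ i, θ i ≤ 2 / 3)
    (hθ : ∀ n, ∃ j, n ≤ j ∧ θ j = 2 / 3) :
    ¬ MemE (symmMeasure (d.nu p)) s (d.g θ) := by
  have hs0 : 0 < s := by linarith
  rintro ⟨hd, hlt⟩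
  have hlt' : (normE (symmMeasure (d.nu p)) s (d.g θ)) ^ s < ⊤ :=
    ENNReal.rpow_lt_top_of_nonneg hs0.le hlt.ne
  obtain ⟨j, hj⟩ := d.blow_up θ h0 (fun i => (h1 i).trans (by norm_num)) p s hp hs hθ
    ((normE (symmMeasure (d.nu p)) s (d.g θ)) ^ s).toReal
  have h2 := d.norm_lower p s hs0 (d.g θ) hd (j + 1)
  have hnn : ∀ i, 0 ≤ d.mass p i * Real.circleAverage (fun z => ‖d.g θ z‖ ^ s) 0 (rad i) := by
    intro i
    apply mul_nonneg (d.mass_pos p i).le
    apply Real.circleAverage_nonneg_of_nonneg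
    intro z _
    positivity
  have h3 : d.mass p j * Real.circleAverage (fun z => ‖d.g θ z‖ ^ s) 0 (rad j)
      ≤ ∑ i ∈ Finset.range (j + 1),
        d.mass p i * Real.circleAverage (fun z => ‖d.g θ z‖ ^ s) 0 (rad i) :=
    Finset.single_le_sum (f := fun i => d.mass p i *
      Real.circleAverage (fun z => ‖d.g θ z‖ ^ s) 0 (rad i)) (fun i _ => hnn i)
      (Finset.mem_range.2 (Nat.lt_succ_self j))
  have h4 := ENNReal.toReal_mono hlt'.ne h2
  rw [ENNReal.toReal_ofReal (Finset.sum_nonneg fun i _ => hnn i)] at h4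
  linarith

theorem result (p : ℝ) (hp : 0 < p) :
    ∃ ν : Measure ℝ, IsRadialPart ν ∧ ∃ g h : ℂ → ℂ,
      WeaklyInvertible (symmMeasure ν) p g ∧ WeaklyInvertible (symmMeasure ν) p h ∧
      MemE (symmMeasure ν) p (fun z => g z * h z) ∧
      ¬ WeaklyInvertible (symmMeasure ν) p (fun z => g z * h z) ∧
      ∀ p' q' : ℝ, 0 < p' → 0 < q' → 1 / p' + 1 / q' = 1 / p →
        ¬ (MemE (symmMeasure ν) p' g ∧ MemE (symmMeasure ν) q' h) := by
  obtain ⟨d⟩ := exists_Sq (6 + 5 / p) (by have : 0 < 5 / p := by positivity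
                                          linarith)
  have hmul : ∀ z : ℂ, ‖z‖ < 1 → d.g th z * d.g et z = d.g (fun _ => 1) z := by
    intro z hz
    rw [d.g_mul th et abs_th abs_et hz]
    congr 1
    funext i
    exact th_add_et i
  have hmem : MemE (symmMeasure (d.nu p)) p (fun z => d.g th z * d.g et z) := by
    refine ⟨(d.g_diff th abs_th).mul (d.g_diff et abs_et), ?_⟩
    refine (d.norm_upper p p hp _ (fun j => Real.exp p * (4 / 5) ^ j) (fun j => by positivity)
      (Sq.geo.summable.mul_left _) (fun j z hz => ?_)).trans_lt ?_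
    · rw [hmul z (hz.trans_lt (rad_lt_one j))]
      exact d.upper_one p hp j z hz
    · exact ENNReal.rpow_lt_top_of_nonneg (by positivity) ENNReal.ofReal_ne_top
  refine ⟨d.nu p, d.nu_radial p hp, d.g th, d.g et,
    weaklyInvertible_frac d p hp th th_nonneg th_le,
    weaklyInvertible_frac d p hp et et_nonneg et_le, hmem, ?_, ?_⟩
  · rintro ⟨-, q, hq⟩
    obtain ⟨ε, hε, hlow⟩ := Sq.key_lower p hp d
    have hbound : ∀ n, ENNReal.ofReal ε ≤ (normE (symmMeasure (d.nu p)) p
        (fun z => (q n).eval z * (d.g th z * d.g et z) - 1)) ^ p := by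
      intro n
      obtain ⟨J, hJ⟩ := hlow (q n)
      have hd : DifferentiableOn ℂ (fun z => (q n).eval z * (d.g th z * d.g et z) - 1)
          (ball 0 1) := by
        apply DifferentiableOn.sub_const
        exact (q n).differentiable.differentiableOn.mul
          ((d.g_diff th abs_th).mul (d.g_diff et abs_et))
      refine le_trans ?_ (d.norm_lower p p hp _ hd J)
      apply ENNReal.ofReal_le_ofReal
      refine hJ.trans (le_of_eq ?_)
      apply Finset.sum_congr rfl
      intro j _
      congr 1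
      apply Real.circleAverage_congr_sphere
      intro z hz
      have hz' : ‖z‖ = rad j := by simpa [abs_of_pos (rad_pos j)] using hz
      simp only
      rw [hmul z (by rw [hz']; exact rad_lt_one j)]
    have hlim : Tendsto (fun n => (normE (symmMeasure (d.nu p)) p
        (fun z => (q n).eval z * (d.g th z * d.g et z) - 1)) ^ p) atTop (𝓝 0) := by
      have e2 := hq.ennrpow_const p
      rwa [ENNReal.zero_rpow_of_pos hp] at e2
    have := ge_of_tendsto' hlim hbound
    rw [nonpos_iff_eq_zero, ENNReal.ofReal_eq_zero] at this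
    linarith
  · rintro p' q' hp' hq' hpq ⟨hg, hh⟩
    have hcase : 3 / 2 * p < p' ∨ 3 / 2 * p < q' := by
      by_contra hcon
      push Not at hcon
      obtain ⟨c1, c2⟩ := hcon
      have d1 : 1 / (3 / 2 * p) ≤ 1 / p' := one_div_le_one_div_of_le hp' c1
      have d2 : 1 / (3 / 2 * p) ≤ 1 / q' := one_div_le_one_div_of_le hq' c2
      have d3 : 1 / (3 / 2 * p) = 2 / 3 * (1 / p) := by field_simp
      have d4 : 0 < 1 / p := by positivity
      linarith
    rcases hcase with hc | hc
    · apply not_memE_of_large d p p' hp hc th th_nonneg th_le _ hg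
      intro n
      refine ⟨2 * n, by omega, ?_⟩
      unfold th
      rw [if_pos (even_two_mul n)]
    · apply not_memE_of_large d p q' hp hc et et_nonneg et_le _ hh
      intro n
      refine ⟨2 * n + 1, by omega, ?_⟩
      unfold et
      rw [if_neg (by simp)]

end Pool.Agent.Results.MP_2c3223_an.ProductNotWeaklyInvertible
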